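import Mathlib
import Pool.Agent.Lib.P4b0054.Defs
import Pool.Agent.Lib.P4b0054.Main

namespace Pool.Agent.Results.MP_4b0054_an.EnvelopeNotSchur

open Pool.Agent.Lib.P4b0054

/-- For every `p` in `(0, 1)` and `𝕜` equal to `ℝ` or `ℂ` there is a quasi-Banach space with the
Schur `p`-property whose Banach envelope (which exists) fails the Schur property. -/
theorem result (𝕜 : Type) [RCLike 𝕜] (p : ℝ) (hp0 : 0 < p) (hp1 : p < 1) :
    ∃ (X : Type) (_ : AddCommGroup X) (_ : Module 𝕜 X) (N : X → ℝ), IsCounterexample 𝕜 p N :=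
  main 𝕜 p hp0 hp1

end Pool.Agent.Results.MP_4b0054_an.EnvelopeNotSchur
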